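import Pool.Agent.TH464.PO.BaseFam2

set_option autoImplicit false

/-!
# Almost prime Goldbach representations: consecutive gaps of prescribed exact lengths

For even `N` let `m` be good if `m` and `N - m` both have fewer than `r` prime factors, all larger
than `N ^ (1 / r)`, let `V` be the sieve density of this condition, and for a finite set `B` let
`V_B` be the sieve density of the condition that all `m + t`, `t ∈ B`, satisfy it. Given `θ > 0`,
a number `s` of gaps, a size `x` and an accuracy `ε`, for all `r ≥ r0` and EVERY large even `N`,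
in ALL intervals `(Z, Z + Y]` with `Y ≥ N ^ θ` and `Z + 2 Y ≤ N` and for ALL gap lengths `d_0,
..., d_(s-1) ≥ 1` with sum `L ≤ x / V`: the number of the good integers `b` in `(Z, Z + Y]` whose
next `s` gaps are EXACTLY `d_0, ..., d_(s-1)` is `Y V_B e ^ (-L V)`, up to `ε Y V_B`, where `B` is
the set of the positions `0, d_0, d_0 + d_1, ..., L`.
-/

namespace Pool.Agent.Results.MP_b58c63_nt.ExactGaps

open Finset Filter

/-- `m < N`, and `m` and `N - m` have fewer than `r` prime factors (with multiplicity), all of them larger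
than `N ^ (1 / r)`. -/
def GoodPair (r N m : ℕ) : Prop :=
  m < N ∧ (m.primeFactorsList.length < r ∧
    ∀ p : ℕ, p.Prime → p ∣ m → (N : ℝ) ^ (1 / (r : ℝ)) < (p : ℝ)) ∧
  ((N - m).primeFactorsList.length < r ∧
    ∀ p : ℕ, p.Prime → p ∣ N - m → (N : ℝ) ^ (1 / (r : ℝ)) < (p : ℝ))

open Classical in
/-- The sieve density: the product over the primes `p ≤ N ^ (1 / r)` of `1 - 1 / p` if `p` divides `N`, and
of `1 - 2 / p` if not. -/
noncomputable def V (r N : ℕ) : ℝ :=
  ∏ p ∈ (Finset.range (⌊(N : ℝ) ^ (1 / (r : ℝ))⌋₊ + 1)).filter Nat.Prime,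
    (1 - (if p ∣ N then 1 else 2) / (p : ℝ))

open Classical in
/-- The sieve density of the pattern `B`: the product of `1 - ρ(p) / p` over the primes `p ≤ N ^ (1 / r)`,
where `ρ(p)` is the number of the residues `m` mod `p` such that `m + t` is `0` or `N` mod `p` for some `t`
in `B`. -/
noncomputable def VB (r N : ℕ) (B : Finset ℕ) : ℝ :=
  ∏ p ∈ (Finset.range (⌊(N : ℝ) ^ (1 / (r : ℝ))⌋₊ + 1)).filter Nat.Prime,
    (1 - ((((Finset.range p).filter
      (fun m => ∃ t ∈ B, p ∣ m + t ∨ m + t ≡ N [MOD p])).card : ℕ) : ℝ) / p)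

/-- The next good integer after `b`. -/
noncomputable def next (r N : ℕ) (b : ℕ) : ℕ :=
  sInf {m | b < m ∧ GoodPair r N m}

/-- The `j`-th gap after `b`: the distance between the `j`-th and the `(j + 1)`-st good integer after `b`,
where the `0`-th is `b` itself. -/
noncomputable def gap (r N : ℕ) (b j : ℕ) : ℕ :=
  (next r N)^[j + 1] b - (next r N)^[j] b

/-- The positions `d 0 + ... + d (i - 1)`, `i = 0, 1, ..., s`, of good integers with the consecutive gaps
`d 0, ..., d (s - 1)`. -/
def pos {s : ℕ} (d : Fin s → ℕ) (i : ℕ) : ℕ :=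
  ∑ k ∈ Finset.range i, if h : k < s then d ⟨k, h⟩ else 0

/-- The set of these `s + 1` positions. -/
def pattern {s : ℕ} (d : Fin s → ℕ) : Finset ℕ :=
  (Finset.range (s + 1)).image (pos d)

open Pool.Agent.TH464.PO

open Classical in
/-- **Consecutive gaps of prescribed exact lengths**, for every large even `N`. -/
theorem result (θ : ℝ) (hθ : 0 < θ) (s : ℕ) (x ε : ℝ) (hε : 0 < ε) :
    ∃ r0 : ℕ, ∀ r : ℕ, r0 ≤ r → ∀ᶠ N : ℕ in atTop, 2 ∣ N → ∀ Z Y : ℕ, (N : ℝ) ^ θ ≤ Y →
      Z + 2 * Y ≤ N → ∀ d : Fin s → ℕ, (∀ j, 1 ≤ d j) → pos d s * V r N ≤ x →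
        |(((Finset.Ioc Z (Z + Y)).filter
            (fun b => GoodPair r N b ∧ ∀ j : Fin s, gap r N b j = d j)).card : ℝ) -
          Y * VB r N (pattern d) * Real.exp (-(pos d s * V r N))| ≤
            ε * (Y * VB r N (pattern d)) := by
  obtain ⟨r0, h⟩ := gold_exact θ hθ s x ε hε
  refine ⟨r0, fun r hr => ?_⟩
  filter_upwards [h r hr] with N hN h2
  exact hN h2 (GoodPair r N) (V r N) (VB r N) (fun m _ => Iff.rfl) (gold_V N _)
    (fun B => gold_VB N B _)

end Pool.Agent.Results.MP_b58c63_nt.ExactGaps
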