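import Pool.Agent.TH464.PO.LinJoint

set_option autoImplicit false

/-!
# Almost prime Goldbach representations: the joint law in several windows, uniformly in `N`

For even `N` let `m` be good if `m` and `N - m` both have fewer than `r` prime factors, all larger than
`N ^ (1 / r)`, and let `V` be the sieve density of this condition. Given `θ > 0`, a number `s` of
windows, a size `x` and an accuracy `ε`, for all `r ≥ r0` and EVERY large even `N`, in ALL intervals
`(Z, Z + Y]` with `Y ≥ N ^ θ` and for ALL disjoint windows `(a_i, b_i]` with `b_i V ≤ x` (and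
`Z + Y + b_i ≤ N`): the numbers of the good integers in the windows `(n + a_i, n + b_i]`, for `n` in
`(Z, Z + Y]`, are asymptotically independent Poisson variables of means `(b_i - a_i) V`.
-/

namespace Pool.Agent.Results.MP_b58c63_nt.JointWindows

open Finset Filter

/-- `m < N`, and `m` and `N - m` have fewer than `r` prime factors (with multiplicity), all of them larger
than `N ^ (1 / r)`. -/
def GoodPair (r N m : ℕ) : Prop :=
  m < N ∧ (m.primeFactorsList.length < r ∧
    ∀ p : ℕ, p.Prime → p ∣ m → (N : ℝ) ^ (1 / (r : ℝ)) < (p : ℝ)) ∧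
  ((N - m).primeFactorsList.length < r ∧
    ∀ p : ℕ, p.Prime → p ∣ N - m → (N : ℝ) ^ (1 / (r : ℝ)) < (p : ℝ))

open Classical in
/-- The sieve density: the product over the primes `p ≤ N ^ (1 / r)` of `1 - 1 / p` if `p` divides `N`, and
of `1 - 2 / p` if not. -/
noncomputable def V (r N : ℕ) : ℝ :=
  ∏ p ∈ (Finset.range (⌊(N : ℝ) ^ (1 / (r : ℝ))⌋₊ + 1)).filter Nat.Prime,
    (1 - (if p ∣ N then 1 else 2) / (p : ℝ))

open Classical in
/-- The number of the good `m` in `(u, v]`. -/
noncomputable def count (r N u v : ℕ) : ℕ :=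
  ((Finset.Ioc u v).filter (fun m => GoodPair r N m)).card

/-- The probability of `E` for the Poisson distribution of mean `x`. -/
noncomputable def Poi (x : ℝ) (E : Finset ℕ) : ℝ :=
  ∑ j ∈ E, Real.exp (-x) * x ^ j / j.factorial

open Pool.Agent.TH464.PO

open Classical in
/-- **The joint law in several windows**, uniformly in `N`. -/
theorem result (θ : ℝ) (hθ : 0 < θ) (s : ℕ) (x ε : ℝ) (hε : 0 < ε) :
    ∃ r0 : ℕ, ∀ r : ℕ, r0 ≤ r → ∀ᶠ N : ℕ in atTop, 2 ∣ N → ∀ Z Y : ℕ, (N : ℝ) ^ θ ≤ Y →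
      ∀ a b : Fin s → ℕ, (∀ i, a i ≤ b i) → (∀ i, b i * V r N ≤ x) → (∀ i, Z + Y + b i ≤ N) →
      (∀ i j, i ≠ j → b i ≤ a j ∨ b j ≤ a i) → ∀ E : Fin s → Finset ℕ,
        |(((Finset.Ioc Z (Z + Y)).filter
            (fun n => ∀ i, count r N (n + a i) (n + b i) ∈ E i)).card : ℝ) -
          Y * ∏ i, Poi (((b i : ℝ) - a i) * V r N) (E i)| ≤ ε * Y := by
  obtain ⟨r0, h⟩ := gold_joint θ hθ s x ε hε
  refine ⟨r0, fun r hr => ?_⟩
  filter_upwards [h r hr] with N hN h2
  exact hN h2 (GoodPair r N) (V r N) (fun m _ => Iff.rfl) (gold_V N _)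

end Pool.Agent.Results.MP_b58c63_nt.JointWindows
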